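import Mathlib
import Pool.Agent.H33.FinUnb

set_option autoImplicit false

open Set Filter Cardinal Function

namespace Pool.Agent.Results.MP_28b4a6_lc.NoMaximal

/-- No monochromatic triangle (values of `c` on the diagonal are irrelevant). -/
def TriangleFree {X : Type} (c : Sym2 X → ℕ) : Prop :=
  ¬ ∃ x y z : X, x ≠ y ∧ y ≠ z ∧ x ≠ z ∧ c s(x, y) = c s(y, z) ∧ c s(y, z) = c s(x, z)

/-- Maximal triangle-free colourings. -/
def MaximalTriangleFree {X : Type} (c : Sym2 X → ℕ) : Prop :=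
  TriangleFree c ∧ ∀ f : X → ℕ, ∃ x z : X, x ≠ z ∧ f x = c s(x, z) ∧ f z = c s(x, z)

/-- Dense subsets of a forcing notion. -/
def IsDense {P : Type} [PartialOrder P] (D : Set P) : Prop := ∀ p, ∃ q ∈ D, q ≤ p

/-- Any `ℵ₁` dense subsets of `P` are met by a filter. -/
def MeetsAleph1 (P : Type) [PartialOrder P] : Prop :=
  ∀ 𝒟 : Set (Set P), #𝒟 ≤ ℵ_ 1 → (∀ D ∈ 𝒟, IsDense D) →
    ∃ G : Set P, (∀ p ∈ G, ∀ q, p ≤ q → q ∈ G) ∧ (∀ p ∈ G, ∀ q ∈ G, ∃ r ∈ G, r ≤ p ∧ r ≤ q) ∧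
      ∀ D ∈ 𝒟, (G ∩ D).Nonempty

/-- The countable chain condition. -/
def CCC (P : Type) [PartialOrder P] : Prop :=
  ∀ A : Set P, (A.Pairwise fun p q => ¬ ∃ r, r ≤ p ∧ r ≤ q) → A.Countable

/-- Proper forcing: for club many countable sets `N` of conditions and subsets of `P`, every
condition in `N` has an `(N, P)`-generic extension. -/
def Proper (P : Type) [PartialOrder P] : Prop :=
  ∃ F : Finset (P ⊕ Set P) → ℕ → P ⊕ Set P, ∀ N : Set (P ⊕ Set P), N.Countable →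
    (∀ s : Finset (P ⊕ Set P), (s : Set (P ⊕ Set P)) ⊆ N → ∀ n, F s n ∈ N) →
    ∀ p, Sum.inl p ∈ N → ∃ q ≤ p, ∀ D, Sum.inr D ∈ N → IsDense D →
      ∀ r ≤ q, ∃ d ∈ D, Sum.inl d ∈ N ∧ ∃ t, t ≤ d ∧ t ≤ r

/-- Martin's axiom for `ℵ₁` dense sets. -/
def MA1 : Prop := ∀ (P : Type) [PartialOrder P] [Nonempty P], CCC P → MeetsAleph1 P

/-- The proper forcing axiom. -/
def PFA : Prop := ∀ (P : Type) [PartialOrder P] [Nonempty P], Proper P → MeetsAleph1 P

theorem fin_of {X : Type} {c : Sym2 X → ℕ} (h : TriangleFree c) (K : Finset ℕ) :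
    ∀ S : Set X, (S.Pairwise fun x y => c s(x, y) ∈ K) → S.Finite := by
  induction K using Finset.strongInduction with
  | _ K ih =>
    intro S hS
    rcases S.eq_empty_or_nonempty with rfl | ⟨x, hx⟩
    · exact finite_empty
    refine ((K.finite_toSet.biUnion (t := fun i => {y ∈ S | y ≠ x ∧ c s(x, y) = i}) fun i hi =>
      ih (K.erase i) (Finset.erase_ssubset hi) _ fun y a z b e => Finset.mem_erase.2
        ⟨fun t => h ⟨x, y, z, a.2.1.symm, e, b.2.1.symm, a.2.2.trans t.symm,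
          t.trans b.2.2.symm⟩, hS a.1 b.1 e⟩).insert x).subset fun y hy => ?_
    rcases eq_or_ne y x with e | e
    · exact .inl e
    · exact .inr (mem_biUnion (hS hx hy e.symm) ⟨hy, e, rfl⟩)

theorem supply {X : Type} [Nonempty X] {c : Sym2 X → ℕ} (h : TriangleFree c) :
    ∃ I : ℕ → ℕ → Set X, (∀ n j, (I n j).Pairwise fun x z => c s(x, z) ≠ n) ∧
      ∀ y k, ∃ n ≥ k, ∃ j, y ∈ I n j := by
  have a : ∀ k : ℕ, ∃ S : Set X, S.Finite ∧ ∀ y ∉ S, ∃ d ∈ S, k ≤ c s(d, y) := fun k => by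
    obtain ⟨S, hS⟩ := zorn_subset {S : Set X | S.Pairwise fun x y => c s(x, y) ∈ Finset.range k}
      fun C a b => ⟨⋃₀ C, (pairwise_sUnion b.directedOn).2 a, fun _ => subset_sUnion_of_mem⟩
    refine ⟨S, fin_of h _ S hS.1, fun y hy => ?_⟩
    by_contra! t
    refine hy (hS.2 (y := insert y S) (hS.1.insert fun d hd _ => ?_) (subset_insert _ _) (.inl rfl))
    rw [Sym2.eq_swap, and_self]
    exact Finset.mem_range.2 (t d hd)
  choose S S1 S2 using a
  obtain ⟨d, hd⟩ := ((countable_iUnion fun k => (S1 k).countable).insert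
    (Classical.arbitrary X)).exists_eq_range (insert_nonempty _ _)
  refine ⟨fun n j => if j % 2 = 0 then {d (j / 2)} else
    {y | y ≠ d (j / 2) ∧ c s(d (j / 2), y) = n}, fun n j => ?_, fun y k => ?_⟩
  · dsimp only
    split_ifs
    · exact pairwise_singleton _ _
    · exact fun y a z b e t => h ⟨_, y, z, a.1.symm, e, b.1.symm, a.2.trans t.symm,
        t.trans b.2.symm⟩
  · rcases em (y ∈ S k) with e | e
    · obtain ⟨j, rfl⟩ := hd.le (.inr (mem_iUnion.2 ⟨k, e⟩))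
      exact ⟨k, le_rfl, 2 * j, by simp⟩
    · obtain ⟨x, x1, x2⟩ := S2 k y e
      obtain ⟨j, rfl⟩ := hd.le (.inr (mem_iUnion.2 ⟨k, x1⟩))
      refine ⟨_, x2, 2 * j + 1, ?_⟩
      dsimp only
      rw [if_neg (by omega), show (2 * j + 1) / 2 = j by omega]
      exact ⟨fun t => e (t ▸ x1), rfl⟩

theorem not_max {X : Type} (H : ∀ A : X → Set (ℕ × ℕ), (∀ y k, ∃ a ∈ A y, k ≤ a.1) →
    ∃ g : ℕ → ℕ, ∀ y, ∃ n, (n, g n) ∈ A y) (c : Sym2 X → ℕ) : ¬ MaximalTriangleFree c := by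
  rintro ⟨h1, h2⟩
  obtain ⟨x, -⟩ := h2 0
  have : Nonempty X := ⟨x⟩
  obtain ⟨I, I1, I2⟩ := supply h1
  obtain ⟨g, hg⟩ := H (fun y => {a | y ∈ I a.1 a.2}) fun y k => by
    obtain ⟨n, a, j, b⟩ := I2 y k
    exact ⟨(n, j), b, a⟩
  choose f hf using hg
  obtain ⟨x, z, a, b, e⟩ := h2 f
  exact I1 _ _ (hf x) (show z ∈ I (f x) (g (f x)) by rw [b, ← e]; exact hf z) a b.symm

abbrev Coh : Type := {s : Finset (ℕ × ℕ) // ∀ a ∈ s, ∀ b ∈ s, a.1 = b.1 → a.2 = b.2}ᵒᵈ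

theorem of_meets {X : Type} (hX : #X ≤ ℵ_ 1) (h : MeetsAleph1 Coh) (A : X → Set (ℕ × ℕ))
    (hA : ∀ y k, ∃ a ∈ A y, k ≤ a.1) : ∃ g : ℕ → ℕ, ∀ y, ∃ n, (n, g n) ∈ A y := by
  obtain ⟨G, -, G2, G3⟩ := h (range fun y => {p : Coh | ∃ a ∈ p.1, a ∈ A y})
    (mk_range_le.trans hX) (forall_mem_range.2 fun y p => by
      obtain ⟨a, a1, a2⟩ := hA y (p.1.sup Prod.fst + 1)
      have : ∀ b ∈ p.1, b.1 ≠ a.1 := fun b hb e => by
        have := Finset.le_sup (f := Prod.fst) hb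
        omega
      refine ⟨⟨insert a p.1, fun x hx z hz e => ?_⟩, ⟨a, Finset.mem_insert_self _ _, a1⟩,
        Finset.subset_insert _ _⟩
      rcases Finset.mem_insert.1 hx with rfl | hx' <;> rcases Finset.mem_insert.1 hz with rfl | hz'
      · rfl
      · exact (this _ hz' e.symm).elim
      · exact (this _ hx' e).elim
      · exact p.2 _ hx' _ hz' e)
  refine ⟨fun n => Classical.epsilon fun j => ∃ p ∈ G, (n, j) ∈ p.1, fun y => ?_⟩
  obtain ⟨p, p1, a, a1, a2⟩ := G3 _ ⟨y, rfl⟩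
  obtain ⟨q, q1, q2⟩ := Classical.epsilon_spec (p := fun j => ∃ p ∈ G, (a.1, j) ∈ p.1)
    ⟨a.2, p, p1, a1⟩
  obtain ⟨r, -, r1, r2⟩ := G2 p p1 q q1
  have := r.2 _ (r1 a1) _ (r2 q2) rfl
  refine ⟨a.1, ?_⟩
  convert a2 using 1
  exact Prod.ext rfl this.symm

theorem both :
    (MA1 ∨ PFA → ∀ X : Set ℝ, #X = ℵ_ 1 → ∀ c : Sym2 X → ℕ, ¬ MaximalTriangleFree c) ∧
    ∀ X : Type, #X < Pool.Agent.H33.FinUnb.covM → ∀ c : Sym2 X → ℕ, ¬ MaximalTriangleFree c := by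
  refine ⟨fun h X hX => not_max (of_meets hX.le ?_), fun X hX => not_max fun A hA => ?_⟩
  · have : Nonempty Coh := ⟨⟨∅, by simp⟩⟩
    have : Countable Coh := Subtype.countable
    rcases h with h | h
    · exact h Coh fun A _ => to_countable A
    · obtain ⟨e, he⟩ := exists_surjective_nat Coh
      refine h Coh ⟨fun _ n => .inl (e n), fun N _ hN p _ => ⟨p, le_rfl, fun D _ hD r _ => ?_⟩⟩
      obtain ⟨d, a, b⟩ := hD r
      obtain ⟨n, rfl⟩ := he d
      exact ⟨_, a, hN ∅ (by simp) n, _, le_rfl, b⟩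
  · have a : ∀ y, IsMeagre {g : ℕ → ℕ | ∃ n, (n, g n) ∈ A y}ᶜ := fun y => by
      rw [IsMeagre, compl_compl]
      refine residual_of_dense_open ?_ fun g => ?_
      · simp only [ofPred_exists]
        exact isOpen_iUnion fun n => (isOpen_discrete {j | (n, j) ∈ A y}).preimage
          (continuous_apply (A := fun _ : ℕ => ℕ) n)
      · choose a a1 a2 using hA y
        refine mem_closure_of_tendsto (f := fun k => update g (a k).1 (a k).2) (b := atTop) ?_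
          (.of_forall fun k => ⟨(a k).1, by simpa using a1 k⟩)
        refine tendsto_pi_nhds.2 fun j => tendsto_const_nhds.congr' ?_
        filter_upwards [eventually_gt_atTop j] with n hn
        rw [update_of_ne (hn.trans_le (a2 n)).ne]
    obtain ⟨g, hg⟩ := (ne_univ_iff_exists_notMem _).1 fun e => hX.not_ge
      ((Pool.Agent.H33.FinUnb.covM_le (forall_mem_range.2 a) e).trans mk_range_le)
    exact ⟨g, fun y => not_not.1 fun t => hg ⟨_, ⟨y, rfl⟩, t⟩⟩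

theorem result (h : MA1 ∨ PFA) (X : Set ℝ) (hX : #X = ℵ_ 1) (c : Sym2 X → ℕ) :
    ¬ MaximalTriangleFree c :=
  both.1 h X hX c

end Pool.Agent.Results.MP_28b4a6_lc.NoMaximal
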